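import Pool.Agent.helper92.ISA.Spec

set_option autoImplicit false

open Filter Topology

namespace Pool.Agent.ISA

open Pool.Agent.PB Pool.Agent.ISO

theorem FIN_pnp (L : Lang) (h : InPPoly L) : InNPPoly L := by
  obtain ⟨c, hc⟩ := h
  refine ⟨c, fun n => ⟨0, Nat.zero_le _, L n, hc n, fun x => ?_⟩⟩
  have e : ∀ y : Fin 0 → Bool, Fin.append x y = x := by
    intro y
    funext i
    exact Fin.append_left x y i
  constructor
  · intro hx
    refine ⟨fun i => Fin.elim0 i, ?_⟩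
    rw [e]
    exact hx
  · rintro ⟨y, hy⟩
    rw [e] at hy
    exact hy

theorem FIN_proof (hDSP : ISA.DSP_stmt) (hPUB : ISA.PUB_stmt) (hVVA : ISO.VVA_stmt) (hLEX : ISA.LEX_stmt)
    (hPB2 : ISA.PB2_stmt) (hTWO : ISO.TWO_stmt) (hLIM : ISO.LIM_stmt) (hODD : ISA.ODD_stmt)
    (hTRN : ISA.TRN_stmt) : ISA.FIN_stmt := by
  refine ⟨?_, hPB2, ?_, hODD, ?_, ?_⟩
  · intro ε m A p h0 h1 hm hA hp hab
    constructor
    · intro hP L
      refine ⟨FIN_pnp L, ?_⟩
      have hPU : PU := by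
        refine hPUB (ε / 2) m A p (by positivity) hP ?_
        exact hDSP ε m A p h0 h1 hm hA hab
      exact hVVA hPU L
    · intro h
      exact hLEX (fun L hL => (h L).2 hL) m A p hA hp
  · rw [hTRN.2.2.1 2]
    exact hTWO
  · intro m κ h1 h2
    rw [hTRN.2.1 m κ]
    exact hLIM.1 m κ h1 h2
  · intro κ hκ
    have h := hLIM.2 κ hκ
    have e : (fun m : ℕ => crit m (Set.Icc 1 κ) * Real.log m) = fun m : ℕ => theta m κ * Real.log m := by
      funext m
      rw [hTRN.2.1 m κ]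
    rw [e]
    exact h

end Pool.Agent.ISA
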